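import Pool.Agent.N24.RW.Stm

/-! Values of linear forms which a prime divides exactly once: pronull sets (engine of helper24). -/

set_option autoImplicit false

namespace Pool.Agent.N97.RO

open Finset Pool.Agent.N24.RW

theorem ncard_lin {ι : Type} [Fintype ι] [DecidableEq ι] (lam : ι → ℤ) (i₀ : ι) (p : ℕ) (hp : p.Prime)
    (h : ¬ (p : ℤ) ∣ lam i₀) :
    (p - 1) * (p ^ 2) ^ (Fintype.card ι - 1) ≤
      {x : ι → ZMod (p ^ 2) | (p : ZMod (p ^ 2)) * ∑ i, (lam i : ZMod (p ^ 2)) * x i = 0 ∧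
        ∑ i, (lam i : ZMod (p ^ 2)) * x i ≠ 0}.ncard := by
  have hp0 : 0 < p := hp.pos
  have : NeZero (p ^ 2) := ⟨(pow_pos hp0 2).ne'⟩
  have hu : IsUnit ((lam i₀ : ℤ) : ZMod (p ^ 2)) := by
    rw [ZMod.coe_int_isUnit_iff_isCoprime]
    have h1 : IsCoprime (p : ℤ) (lam i₀) :=
      (Nat.prime_iff_prime_int.1 hp).coprime_iff_not_dvd.2 h
    push_cast
    exact h1.pow_left
  obtain ⟨u, hu⟩ := hu
  set f : Fin (p - 1) × ({i : ι // i ≠ i₀} → ZMod (p ^ 2)) → (ι → ZMod (p ^ 2)) := fun x i =>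
    if h : i = i₀ then ((u⁻¹ : (ZMod (p ^ 2))ˣ) : ZMod (p ^ 2)) * ((p : ZMod (p ^ 2)) * (((x.1 : ℕ) + 1 : ℕ) : ZMod (p ^ 2)) -
      ∑ j : {i : ι // i ≠ i₀}, (lam j.1 : ZMod (p ^ 2)) * x.2 j) else x.2 ⟨i, h⟩ with hf
  have hL : ∀ x, ∑ i, (lam i : ZMod (p ^ 2)) * f x i = (p : ZMod (p ^ 2)) * (((x.1 : ℕ) + 1 : ℕ) : ZMod (p ^ 2)) := by
    intro x
    rw [Fintype.sum_eq_add_sum_subtype_ne _ i₀]
    have h1 : ∀ j : {i : ι // i ≠ i₀}, f x j.1 = x.2 j := by
      intro j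
      simp only [hf]
      rw [dif_neg j.2]
    have h2 : f x i₀ = ((u⁻¹ : (ZMod (p ^ 2))ˣ) : ZMod (p ^ 2)) * ((p : ZMod (p ^ 2)) * (((x.1 : ℕ) + 1 : ℕ) : ZMod (p ^ 2)) -
      ∑ j : {i : ι // i ≠ i₀}, (lam j.1 : ZMod (p ^ 2)) * x.2 j) := dif_pos rfl
    simp only [h1]
    rw [h2, ← hu, ← mul_assoc, Units.mul_inv, one_mul]
    ring
  have hz : ∀ a : ℕ, ((p : ZMod (p ^ 2)) * (a : ℕ) = 0) ↔ p ∣ a := by
    intro a
    rw [← Nat.cast_mul, ZMod.natCast_eq_zero_iff, pow_two]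
    exact Nat.mul_dvd_mul_iff_left hp0
  have hinj : Function.Injective f := by
    intro x y hxy
    have h1 : x.2 = y.2 := by
      funext j
      have h2 := congrFun hxy j.1
      simp only [hf] at h2
      rw [dif_neg j.2, dif_neg j.2] at h2
      exact h2
    have h2 : (p : ZMod (p ^ 2)) * (((x.1 : ℕ) + 1 : ℕ) : ZMod (p ^ 2)) =
        (p : ZMod (p ^ 2)) * (((y.1 : ℕ) + 1 : ℕ) : ZMod (p ^ 2)) := by
      rw [← hL x, ← hL y, hxy]
    have hlt : ∀ a : Fin (p - 1), p * ((a : ℕ) + 1) < p ^ 2 := by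
      intro a
      rw [pow_two]
      have := a.2
      exact Nat.mul_lt_mul_of_pos_left (by omega) hp0
    rw [← Nat.cast_mul, ← Nat.cast_mul, ZMod.natCast_eq_natCast_iff, Nat.ModEq,
      Nat.mod_eq_of_lt (hlt x.1), Nat.mod_eq_of_lt (hlt y.1)] at h2
    have h3 := Nat.eq_of_mul_eq_mul_left hp0 h2
    refine Prod.ext (Fin.ext ?_) h1
    omega
  have hsub : Set.range f ⊆ {x : ι → ZMod (p ^ 2) | (p : ZMod (p ^ 2)) * ∑ i, (lam i : ZMod (p ^ 2)) * x i = 0 ∧
        ∑ i, (lam i : ZMod (p ^ 2)) * x i ≠ 0} := by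
    rintro _ ⟨x, rfl⟩
    rw [Set.mem_ofPred_eq, hL]
    constructor
    · rw [← mul_assoc, ← Nat.cast_mul, ← pow_two, ZMod.natCast_self, zero_mul]
    · rw [Ne, hz]
      intro h1
      have h2 := Nat.le_of_dvd (by omega) h1
      have := x.1.2
      omega
  refine le_trans (le_of_eq ?_) (Set.ncard_le_ncard hsub (Set.toFinite _))
  rw [← Set.image_univ, Set.ncard_image_of_injective _ hinj, Set.ncard_univ, Nat.card_prod, Nat.card_fin,
    Nat.card_fun, Nat.card_zmod, Nat.card_eq_fintype_card, Fintype.card_subtype_compl, Fintype.card_subtype_eq]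

/-- all the primes of a set with divergent sum of reciprocals do not divide the value of a linear form exactly
once: a pronull condition -/
theorem lin_null (hC : S_CRIT) (hD : S_CLO) {ι : Type} [Fintype ι] (lam : ι → ℤ) (hl : lam ≠ 0) (P : Set ℕ)
    (hdiv : ∀ B : ℝ, ∃ N : ℕ, B ≤ ∑ n ∈ range N, Set.indicator P (fun _ => (1 : ℝ)) n * (1 / ((n : ℝ) + 1)))
    (hP : ∀ p ∈ P, p.Prime) :
    ProNull {c : ι → ℤ | ¬ ∃ p ∈ P, (p : ℤ) ∣ ∑ i, lam i * c i ∧ ¬ (p : ℤ) ^ 2 ∣ ∑ i, lam i * c i} := by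
  classical
  obtain ⟨i₀, hi₀⟩ := Function.ne_iff.1 hl
  have hi₀' : lam i₀ ≠ 0 := hi₀
  have hcard : 0 < Fintype.card ι := Fintype.card_pos_iff.2 ⟨i₀⟩
  set Ω : ∀ p : ℕ, Set (ι → ZMod (p ^ 2)) := fun p => if p ∈ P then
    {x : ι → ZMod (p ^ 2) | (p : ZMod (p ^ 2)) * ∑ i, (lam i : ZMod (p ^ 2)) * x i = 0 ∧
        ∑ i, (lam i : ZMod (p ^ 2)) * x i ≠ 0} else ∅ with hΩ
  have h := hC ι (fun p => p ^ 2) (fun p hp => Nat.one_le_pow _ _ hp.pos)
    (fun p p' hp hp' hne => Nat.Coprime.pow 2 2 ((Nat.coprime_primes hp hp').2 hne)) Ω (lam i₀).natAbs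
    (fun p => if p ∈ P then 1 / (2 * (p : ℝ)) else 0) (fun p => by positivity) ?_ ?_
  · refine (hD ι).1 _ _ ?_ h
    intro c hc p hp hpT hmem
    apply hc
    by_cases hpP : p ∈ P
    · simp only [hΩ, if_pos hpP] at hmem
      obtain ⟨h1, h2⟩ := hmem
      have e1 : ∑ i, ((lam i : ℤ) : ZMod (p ^ 2)) * ((c i : ℤ) : ZMod (p ^ 2)) =
          ((∑ i, lam i * c i : ℤ) : ZMod (p ^ 2)) := by
        push_cast
        rfl
      rw [e1] at h1 h2
      refine ⟨p, hpP, ?_, ?_⟩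
      · have h3 : (((p : ℤ) * ∑ i, lam i * c i : ℤ) : ZMod (p ^ 2)) = 0 := by
          rw [Int.cast_mul, Int.cast_natCast]
          exact h1
        rw [ZMod.intCast_zmod_eq_zero_iff_dvd] at h3
        push_cast at h3
        rw [pow_two] at h3
        exact (mul_dvd_mul_iff_left (by exact_mod_cast hp.ne_zero : (p : ℤ) ≠ 0)).1 h3
      · intro h3
        apply h2
        rw [ZMod.intCast_zmod_eq_zero_iff_dvd]
        push_cast
        exact h3
    · simp only [hΩ, if_neg hpP] at hmem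
      exact absurd hmem (Set.notMem_empty _)
  · intro hs
    have hnn : ∀ n : ℕ, 0 ≤ (if n.Prime then (if n ∈ P then 1 / (2 * (n : ℝ)) else 0) else 0 : ℝ) := by
      intro n
      positivity
    obtain ⟨N, hN⟩ := hdiv (2 * (∑' n : ℕ, (if n.Prime then (if n ∈ P then 1 / (2 * (n : ℝ)) else 0) else 0 : ℝ)) + 1)
    have h1 := hs.sum_le_tsum (range N) (fun n _ => hnn n)
    have h2 : ∑ n ∈ range N, Set.indicator P (fun _ => (1 : ℝ)) n * (1 / ((n : ℝ) + 1)) ≤
        2 * ∑ n ∈ range N, (if n.Prime then (if n ∈ P then 1 / (2 * (n : ℝ)) else 0) else 0 : ℝ) := by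
      rw [mul_sum]
      refine sum_le_sum fun n _ => ?_
      by_cases hn : n ∈ P
      · have hnp := hP n hn
        have hn0 : (0 : ℝ) < n := by exact_mod_cast hnp.pos
        rw [Set.indicator_of_mem hn, if_pos hnp, if_pos hn, one_mul]
        have e : 2 * (1 / (2 * (n : ℝ))) = 1 / (n : ℝ) := by field_simp
        rw [e]
        exact one_div_le_one_div_of_le hn0 (by linarith)
      · rw [Set.indicator_of_notMem hn, zero_mul]
        exact mul_nonneg (by norm_num) (hnn n)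
    linarith
  · intro p hp hpT
    have hp0 : (0 : ℝ) < p := by exact_mod_cast hp.pos
    by_cases hpP : p ∈ P
    · rw [if_pos hpP]
      have hpl : ¬ (p : ℤ) ∣ lam i₀ := by
        intro h1
        have h2 := Nat.le_of_dvd (Int.natAbs_pos.2 hi₀') (Int.natCast_dvd.1 h1)
        omega
      have h3 := ncard_lin lam i₀ p hp hpl
      have h4 : (((p - 1) * (p ^ 2) ^ (Fintype.card ι - 1) : ℕ) : ℝ) ≤ ((Ω p).ncard : ℝ) := by
        rw [hΩ]
        simp only [if_pos hpP]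
        exact_mod_cast h3
      refine le_trans ?_ h4
      obtain ⟨r, hr⟩ : ∃ r, Fintype.card ι = r + 1 := ⟨Fintype.card ι - 1, by omega⟩
      rw [hr, Nat.add_sub_cancel, Nat.cast_mul, Nat.cast_sub hp.one_lt.le, pow_succ]
      push_cast
      have h5 : (2 : ℝ) ≤ p := by exact_mod_cast hp.two_le
      have h6 : (0 : ℝ) < ((p : ℝ) ^ 2) ^ r := by positivity
      have e : 1 / (2 * (p : ℝ)) * (((p : ℝ) ^ 2) ^ r * (p : ℝ) ^ 2) = ((p : ℝ) / 2) * ((p : ℝ) ^ 2) ^ r := by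
        field_simp
      rw [e]
      refine mul_le_mul_of_nonneg_right ?_ h6.le
      linarith
    · rw [if_neg hpP, zero_mul]
      exact Nat.cast_nonneg _

theorem finite_union (hD : S_CLO) {ι : Type} [Fintype ι] [Nonempty ι] {J : Type} (s : Finset J)
    (B : J → Set (ι → ℤ)) (h : ∀ j ∈ s, ProNull (B j)) : ProNull (⋃ j ∈ s, B j) := by
  classical
  induction s using Finset.induction_on with
  | empty =>
    refine (hD ι).2.2.1 inferInstance _ ?_
    simp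
  | insert j s hj ih =>
    rw [Finset.set_biUnion_insert]
    exact (hD ι).2.1 _ _ (h j (mem_insert_self _ _)) (ih fun i hi => h i (mem_insert_of_mem hi))

end Pool.Agent.N97.RO
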