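import Pool.Agent.R925.FD.Two
import Pool.Agent.N97.RO.Lin

/-! The local criterion behind the theorem of `Pool.Agent.R925.FD` on the twists `a x ^ m = h(z)` of cyclic coverings of
the curves `b y ^ n = ∏ k, g k (z)`, for integers `a` which need not be squarefree. -/

set_option autoImplicit false

namespace Pool.Agent.N97.RO

open Finset Polynomial Pool.Agent.R925.FD
open Pool.Agent.W401.Cheb Pool.Agent.W723.SecC Pool.Agent.N24.RW

/-- At a prime which divides `a` exactly once, a point of the covering over `ℚ_p` reduces to a zero of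
`h` (a copy of `R925.FD.reduces`, `a` need not be squarefree). -/
theorem reduces' {p : ℕ} [hp : Fact p.Prime] {K : Type} {n m : ℕ} (hn : 0 < n) (hm : 2 ≤ m) {g : K → ℤ[X]}
    {h : ℤ[X]} (hdeg : ∀ k, n ∣ (g k).natDegree) (hdegh : m ∣ h.natDegree)
    (hNC : ∀ u v : ZMod p, (u ≠ 0 ∨ v ≠ 0) → ∀ k, hom h u v = 0 → hom (g k) u v ≠ 0)
    {a : ℤ} (hpa : (p : ℤ) ∣ a) (hpa2 : ¬ (p : ℤ) ^ 2 ∣ a) {z w x : ℚ_[p]} (hzw : z ≠ 0 ∨ w ≠ 0)
    (hx : (a : ℚ_[p]) * x ^ m = hom h z w) :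
    ∃ u v : ZMod p, (u ≠ 0 ∨ v ≠ 0) ∧ hom h u v = 0 ∧
      ∀ (k : K) (d : ℤ), ¬ (p : ℤ) ∣ d → (∃ y : ℚ_[p], hom (g k) z w = (d : ℚ_[p]) * y ^ n) →
        ∃ y : ZMod p, hom (g k) u v = (d : ZMod p) * y ^ n := by
  obtain ⟨c, z', w', hc, hz, hw, hu⟩ := primitive hzw
  have hh0 : hom h (PadicInt.toZMod z') (PadicInt.toZMod w') = 0 := by
    by_contra hk
    rw [← hom_map] at hk
    obtain ⟨e, he⟩ := hdegh
    have h1 : ((hom h z' w' : ℤ_[p]) : ℚ_[p]) = (a : ℚ_[p]) * (c ^ e * x) ^ m := by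
      rw [hom_coe, ← hz, ← hw, hom_mul, ← hx, he, mul_pow, ← pow_mul, mul_comm e m]
      ring
    have h2 := val_of_toZMod hk
    have h3 := coe_ne_zero_of hk
    rw [h1] at h2 h3
    have h4 : (c ^ e * x) ^ m ≠ 0 := right_ne_zero_of_mul h3
    have ha0 : (a : ℚ_[p]) ≠ 0 := left_ne_zero_of_mul h3
    have hva : (a : ℚ_[p]).valuation = 1 := by
      obtain ⟨q, hq⟩ := hpa
      have hpq : ¬ (p : ℤ) ∣ q := by
        intro h5
        obtain ⟨q', hq'⟩ := h5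
        exact hpa2 ⟨q', by rw [hq, hq']; ring⟩
      have hq0 : (q : ℚ_[p]) ≠ 0 := by
        intro h5
        apply ha0
        rw [hq, Int.cast_mul, h5, mul_zero]
      have hp0 : (p : ℚ_[p]) ≠ 0 := by exact_mod_cast hp.out.ne_zero
      rw [hq, Int.cast_mul, Int.cast_natCast, Padic.valuation_mul hp0 hq0, Padic.valuation_p,
        Padic.valuation_intCast, padicValInt.eq_zero_of_not_dvd hpq]
      rfl
    rw [Padic.valuation_mul ha0 h4, Padic.valuation_pow, hva] at h2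
    have h5 : (m : ℤ) ∣ 1 := ⟨-(c ^ e * x).valuation, by linarith⟩
    have h6 := Int.le_of_dvd one_pos h5
    omega
  refine ⟨_, _, hu, hh0, fun k d hd hy => ?_⟩
  obtain ⟨y, hy⟩ := hy
  have hk := hNC _ _ hu k hh0
  rw [← hom_map] at hk
  obtain ⟨e, he⟩ := hdeg k
  have h1 : ((hom (g k) z' w' : ℤ_[p]) : ℚ_[p]) = (d : ℚ_[p]) * (c ^ e * y) ^ n := by
    rw [hom_coe, ← hz, ← hw, hom_mul, hy, he, mul_pow, ← pow_mul, mul_comm e n]
    ring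
  have h2 := PadicInt.isUnit_iff.1 (isUnit_of_toZMod hk)
  rw [PadicInt.norm_def, h1, norm_mul, norm_pow] at h2
  have h3 : ‖(d : ℚ_[p])‖ = 1 := by
    rw [Padic.norm_intCast_eq_one_iff]
    exact (Int.isCoprime_iff_gcd_eq_one.2 (by
      rw [Int.gcd_comm]
      exact_mod_cast (Nat.Prime.coprime_iff_not_dvd hp.out).2 (fun h => hd (Int.natCast_dvd.2 h))))
  rw [h3, one_mul] at h2
  have h4 : ‖c ^ e * y‖ = 1 := (pow_eq_one_iff_of_nonneg (norm_nonneg _) hn.ne').1 h2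
  obtain ⟨y', hy'⟩ : ∃ y' : ℤ_[p], (y' : ℚ_[p]) = c ^ e * y := ⟨⟨c ^ e * y, h4.le⟩, rfl⟩
  refine ⟨PadicInt.toZMod y', ?_⟩
  rw [← hom_map]
  have h5 : hom (g k) z' w' = (d : ℤ_[p]) * y' ^ n := by
    apply Subtype.coe_injective
    change ((hom (g k) z' w' : ℤ_[p]) : ℚ_[p]) = (((d : ℤ_[p]) * y' ^ n : ℤ_[p]) : ℚ_[p])
    rw [h1, PadicInt.coe_mul, PadicInt.coe_pow, hy', PadicInt.coe_intCast]
  rw [h5, map_mul, map_pow, map_intCast]

/-- **The local criterion.** -/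
theorem local_main {K : Type} [Fintype K] (n : ℕ) (hn : 0 < n) (b : ℤ) (hb : b ≠ 0) (g : K → ℤ[X])
    (h : ℤ[X]) (hg0 : ∀ k, g k ≠ 0) (hh0 : h ≠ 0) (hdeg : ∀ k, n ∣ (g k).natDegree)
    (hgg : ∀ k l, k ≠ l →
      IsCoprime ((g k).map (Int.castRingHom ℚ)) ((g l).map (Int.castRingHom ℚ)))
    (hgh : ∀ k, IsCoprime (h.map (Int.castRingHom ℚ)) ((g k).map (Int.castRingHom ℚ))) :
    ∃ (Δ : Finset (K → ℤ)) (P : (K → ℤ) → Set ℕ),
      (∀ s ∈ Δ, (∀ p ∈ P s, p.Prime) ∧ ∀ B : ℝ, ∃ N : ℕ, B ≤ ∑ n ∈ range N,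
        Set.indicator (P s) (fun _ => (1 : ℝ)) n * (1 / ((n : ℝ) + 1))) ∧
      ∀ a : ℤ, (∀ s ∈ Δ, ∃ p ∈ P s, (p : ℤ) ∣ a ∧ ¬ (p : ℤ) ^ 2 ∣ a) → ∀ m, 2 ≤ m → m ∣ h.natDegree →
        ∀ δ : K → ℚ, IsClass n b δ → (∀ (p : ℕ) [Fact p.Prime], CoveringHasPoint n m a g h δ ℚ_[p]) →
          Persistent n g h δ := by
  classical
  obtain ⟨N0, hN0, hgood⟩ := good_primes g h hg0 hh0 hgg hgh
  set N : ℕ := N0 * b.natAbs with hN
  have hNpos : 0 < N := Nat.mul_pos hN0 (Int.natAbs_pos.2 hb)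
  have hgoodN : ∀ p : ℕ, ¬ p ∣ N → ¬ p ∣ N0 ∧ ¬ (p : ℤ) ∣ b := fun p hp =>
    ⟨fun h1 => hp (h1.trans (Dvd.intro _ rfl)),
      fun h1 => hp ((Int.natCast_dvd.1 h1).trans (Dvd.intro_left _ rfl))⟩
  -- the finite set of the classes
  set D : Finset ℤ := (Finset.Icc (-((N : ℤ) ^ n)) ((N : ℤ) ^ n)).filter (fun s => s ∣ (N : ℤ) ^ n)
    with hD
  have hNn : (0 : ℤ) < (N : ℤ) ^ n := pow_pos (by exact_mod_cast hNpos) n
  have hmemD : ∀ s : ℤ, s ∣ (N : ℤ) ^ n → s ∈ D := by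
    intro s hs
    rw [hD, mem_filter, Finset.mem_Icc]
    have h1 := Int.le_of_dvd hNn hs
    have h2 := Int.le_of_dvd hNn ((neg_dvd).2 hs)
    exact ⟨⟨by linarith, h1⟩, hs⟩
  have hD0 : ∀ s ∈ D, s ≠ 0 := by
    rintro s hs rfl
    rw [hD, mem_filter] at hs
    exact hNn.ne' (zero_dvd_iff.1 hs.2)
  set Δ : Finset (K → ℤ) := (Fintype.piFinset fun _ : K => D).filter
    (fun s => ¬ Persistent n g h (fun k => (s k : ℚ))) with hΔ
  -- for each class there are many primes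
  have hex : ∀ s ∈ Δ, ∃ P : Set ℕ, (∀ p ∈ P, p.Prime) ∧ (∀ B : ℝ, ∃ M : ℕ, B ≤ ∑ n ∈ range M,
        Set.indicator P (fun _ => (1 : ℝ)) n * (1 / ((n : ℝ) + 1))) ∧
        ∀ p ∈ P, ¬ p ∣ N ∧ ¬ R p n g h s := by
    intro s hs
    rw [hΔ, mem_filter, Fintype.mem_piFinset] at hs
    obtain ⟨hsD, hnp⟩ := hs
    unfold Persistent at hnp
    push Not at hnp
    obtain ⟨σ, hσ⟩ := hnp
    obtain ⟨L, iF, iN, iG, τ, m, hm, hL⟩ := cheb n hn g h hh0 hdeg s (fun k => hD0 _ (hsD k)) σ (by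
      intro β h1 h2
      obtain ⟨k, hk⟩ := hσ β h1 h2
      refine ⟨k, fun y hy => ?_⟩
      have h3 := hk y hy
      rw [Rat.cast_intCast] at h3
      exact h3)
    obtain ⟨δ, C', hδpos, hcount⟩ := count L τ (m * N) (Nat.mul_pos hm hNpos)
    refine ⟨frobSet L τ (m * N), fun p hp => hp.1, diverge _ δ C' hδpos hcount, fun p hp => ?_⟩
    refine ⟨fun h4 => hp.2.1 (h4.trans (Dvd.intro_left _ rfl)), ?_⟩
    exact hL p ⟨hp.1, fun h4 => hp.2.1 (h4.trans (Dvd.intro _ rfl)), hp.2.2⟩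
  choose! P hP1 hP2 hP3 using hex
  refine ⟨Δ, P, fun s hs => ⟨hP1 s hs, hP2 s hs⟩, ?_⟩
  intro a ha m hm hmh δ hcl hloc
  obtain ⟨hδ0, t, ht⟩ := hcl
  by_contra hnp
  have hval : ∀ k, ∀ p : ℕ, p.Prime → ¬ p ∣ N → (n : ℤ) ∣ padicValRat p (δ k) := by
    intro k p hp hpN
    have hpF : Fact p.Prime := ⟨hp⟩
    obtain ⟨z, w, x, hzw, hx, hy⟩ := hloc p
    exact val_dvd hdeg (fun u v huv => (hgood p hpF (hgoodN p hpN).1 u v huv).1) hb
      (hgoodN p hpN).2 hδ0 ht hzw hy k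
  choose s c hs hc hsc using fun k => rep (δ k) (hδ0 k) N hNpos n hn (hval k)
  have hsΔ : s ∈ Δ := by
    rw [hΔ, mem_filter, Fintype.mem_piFinset]
    refine ⟨fun k => hmemD _ (hs k), fun hper => hnp ?_⟩
    intro σ
    obtain ⟨β, hβ, hβh, hy⟩ := hper σ
    refine ⟨β, hβ, hβh, fun k => ?_⟩
    obtain ⟨y, hyσ, hyk⟩ := hy k
    have hck : ((c k : ℚ) : AlgebraicClosure ℚ) ≠ 0 := Rat.cast_ne_zero.2 (hc k)
    have hσc : σ ((c k : ℚ) : AlgebraicClosure ℚ) = ((c k : ℚ) : AlgebraicClosure ℚ) :=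
      map_ratCast σ (c k)
    refine ⟨y / (c k : ℚ), ?_, ?_⟩
    · rw [map_div₀, hyσ, hσc]
    · rw [hyk, hsc k, div_pow]
      push_cast
      have h5 : ((c k : ℚ) : AlgebraicClosure ℚ) ^ n ≠ 0 := pow_ne_zero _ hck
      field_simp
  obtain ⟨p, hpP, hpa, hpa2⟩ := ha s hsΔ
  obtain ⟨hpN, hR⟩ := hP3 s hsΔ p hpP
  have hpF : Fact p.Prime := ⟨hP1 s hsΔ p hpP⟩
  apply hR
  obtain ⟨z, w, x, hzw, hx, hy⟩ := hloc p
  obtain ⟨u, v, huv, hhuv, hred⟩ := reduces' (K := K) hn hm hdeg hmh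
    (fun u v huv => (hgood p hpF (hgoodN p hpN).1 u v huv).2) hpa hpa2 hzw hx
  refine ⟨u, v, huv, hhuv, fun k => ?_⟩
  refine hred k (s k) (fun h3 => ?_) ?_
  · have h4 : (p : ℤ) ∣ (N : ℤ) ^ n := h3.trans (hs k)
    have h5 := (Nat.prime_iff_prime_int.1 hpF.out).dvd_of_dvd_pow h4
    exact hpN (by exact_mod_cast h5)
  · obtain ⟨y, hyk⟩ := hy k
    refine ⟨(c k : ℚ) * y, ?_⟩
    rw [hyk, hsc k]
    push_cast
    ring

/-- the exceptional parameters are a pronull set -/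
theorem null_main (hC : S_CRIT) (hD : S_CLO) {K : Type} [Fintype K] (n : ℕ) (hn : 0 < n) (b : ℤ) (hb : b ≠ 0)
    (g : K → ℤ[X]) (h : ℤ[X]) (hg0 : ∀ k, g k ≠ 0) (hh0 : h ≠ 0) (hdeg : ∀ k, n ∣ (g k).natDegree)
    (hgg : ∀ k l, k ≠ l →
      IsCoprime ((g k).map (Int.castRingHom ℚ)) ((g l).map (Int.castRingHom ℚ)))
    (hgh : ∀ k, IsCoprime (h.map (Int.castRingHom ℚ)) ((g k).map (Int.castRingHom ℚ)))
    {ι : Type} [Fintype ι] (lam : ι → ℤ) (hl : lam ≠ 0) :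
    ProNull {c : ι → ℤ | ¬ ∀ m, 2 ≤ m → m ∣ h.natDegree → ∀ δ : K → ℚ, IsClass n b δ →
      (∀ (p : ℕ) [Fact p.Prime], CoveringHasPoint n m (∑ i, lam i * c i) g h δ ℚ_[p]) →
        Persistent n g h δ} := by
  obtain ⟨Δ, P, h1, h2⟩ := local_main n hn b hb g h hg0 hh0 hdeg hgg hgh
  obtain ⟨i₀, hi₀⟩ := Function.ne_iff.1 hl
  have : Nonempty ι := ⟨i₀⟩
  refine (hD ι).1 _ _ ?_ (finite_union hD Δ (fun s => {c : ι → ℤ | ¬ ∃ p ∈ P s,
    (p : ℤ) ∣ ∑ i, lam i * c i ∧ ¬ (p : ℤ) ^ 2 ∣ ∑ i, lam i * c i})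
    fun s hs => lin_null hC hD lam hl (P s) (h1 s hs).2 (h1 s hs).1)
  intro c hc
  by_contra hcon
  apply hc
  refine h2 _ fun s hs => ?_
  by_contra h3
  exact hcon (Set.mem_iUnion₂.2 ⟨s, hs, h3⟩)

theorem point_padic {K : Type} {n m : ℕ} {a : ℤ} {g : K → ℤ[X]} {h : ℤ[X]} {δ : K → ℚ}
    (hC : CoveringHasPoint n m a g h δ ℚ) (p : ℕ) [Fact p.Prime] : CoveringHasPoint n m a g h δ ℚ_[p] := by
  obtain ⟨z, w, x, hzw, hx, hy⟩ := hC
  have e : ∀ q : ℚ, algebraMap ℚ ℚ_[p] q = (q : ℚ_[p]) := fun q => rfl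
  refine ⟨(z : ℚ_[p]), (w : ℚ_[p]), (x : ℚ_[p]), ?_, ?_, fun k => ?_⟩
  · rcases hzw with h1 | h1
    · exact Or.inl (Rat.cast_ne_zero.2 h1)
    · exact Or.inr (Rat.cast_ne_zero.2 h1)
  · have h1 := congrArg (algebraMap ℚ ℚ_[p]) hx
    rw [hom_map, map_mul, map_pow, map_intCast] at h1
    exact h1
  · obtain ⟨y, hy⟩ := hy k
    have h1 := congrArg (algebraMap ℚ ℚ_[p]) hy
    rw [hom_map, map_mul, map_pow] at h1
    refine ⟨(y : ℚ_[p]), ?_⟩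
    rw [Rat.cast_id, e] at h1
    exact h1

/-- if `n = 2` and the zeros of `h` are one or two integers, the persistent coverings have rational points -/
theorem pers_point {K : Type} [Fintype K] (b : ℤ) (g : K → ℤ[X]) (h : ℤ[X]) (α₁ α₂ : ℤ) (hh0 : h ≠ 0)
    (hgh : ∀ k, IsCoprime (h.map (Int.castRingHom ℚ)) ((g k).map (Int.castRingHom ℚ)))
    (hz : ∀ β : AlgebraicClosure ℚ, aeval β h = 0 ↔ β = α₁ ∨ β = α₂) (δ : K → ℚ) (h3 : IsClass 2 b δ)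
    (hper : Persistent 2 g h δ) (a : ℤ) (m : ℕ) (hm : m ≠ 0) : CoveringHasPoint 2 m a g h δ ℚ := by
  have hzero : ∀ α : ℤ, aeval (α : AlgebraicClosure ℚ) h = 0 → h.eval α = 0 := by
    intro α hα
    have h6 := aeval_algebraMap_apply_eq_algebraMap_eval (A := AlgebraicClosure ℚ) α h
    rw [eq_intCast, eq_intCast, hα] at h6
    exact_mod_cast h6.symm
  have hpt : ∀ (f : ℤ[X]) (α : ℤ), hom f (α : ℚ) 1 = ((f.eval α : ℤ) : ℚ) := by
    intro f α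
    rw [hom_one]
    have h6 := eval₂_at_apply (p := f) (Int.castRingHom ℚ) α
    rw [eq_intCast, eq_intCast] at h6
    exact h6
  have hg : ∀ (k : K) (α : ℤ), h.eval α = 0 → (g k).eval α ≠ 0 := by
    intro k α hα hgα
    refine coprime_field hh0 (hgh k) (F := ℚ) (z := (α : ℚ)) (w := 1)
      (Or.inr one_ne_zero) ?_ ?_
    · rw [hpt, hα, Int.cast_zero]
    · rw [hpt, hgα, Int.cast_zero]
  have hα₁ := hzero α₁ ((hz α₁).2 (Or.inl rfl))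
  have hα₂ := hzero α₂ ((hz α₂).2 (Or.inr rfl))
  have key : ∀ α : ℤ, h.eval α = 0 → (∀ k, IsSquare (δ k * ((g k).eval α : ℤ))) →
      CoveringHasPoint 2 m a g h δ ℚ := by
    intro α hα hsq
    refine ⟨α, 1, 0, Or.inr one_ne_zero, ?_, fun k => ?_⟩
    · rw [hpt, hα, zero_pow hm, mul_zero, Int.cast_zero]
    · obtain ⟨r, hr⟩ := hsq k
      have h7 := h3.1 k
      refine ⟨r / δ k, ?_⟩
      rw [hpt, Rat.cast_id, div_pow, sq r, ← hr]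
      field_simp
  rcases persistent_two g h α₁ α₂ (fun β hβ => (hz β).1 hβ) (fun k => hg k α₁ hα₁)
    (fun k => hg k α₂ hα₂) δ h3.1 hper with h6 | h6
  · exact key α₁ hα₁ h6
  · exact key α₂ hα₂ h6

end Pool.Agent.N97.RO
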